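import Mathlib

/-! Multiquadratic fields, bundled, and countability of the ring of integral polynomials. -/

set_option autoImplicit false

open Polynomial

namespace Pool.Agent.V11109.TWI

lemma countable_poly : Countable ℤ[X] :=
  Cardinal.mk_le_aleph0_iff.1 (Polynomial.cardinalMk_le_max.trans (by simp))

/-- a number field, bundled -/
structure NFld where
  /-- the field -/
  K : Type
  /-- field structure -/
  fld : Field K
  /-- it is a number field -/
  nf : NumberField K

attribute [instance] NFld.fld NFld.nf

lemma adjoin_congr {K : Type} [Field K] (a₁ a₂ : Algebra ℚ K) (S : Set K)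
    (h : @IntermediateField.adjoin ℚ _ K _ a₁ S = ⊤) :
    @IntermediateField.adjoin ℚ _ K _ a₂ S = ⊤ := by
  have h1 : a₁ = a₂ := Subsingleton.elim _ _
  subst h1
  exact h

/-- There is a number field generated by square roots of given integers. -/
lemma exists_gen {s : ℕ} (d : Fin s → ℤ) : ∃ F : NFld, ∃ x : Fin s → F.K,
    (∀ i, x i ^ 2 = (d i : F.K)) ∧ IntermediateField.adjoin ℚ (Set.range x) = ⊤ := by
  have hex : ∀ i, ∃ z : ℂ, z ^ 2 = (d i : ℂ) := fun i =>
    IsAlgClosed.exists_pow_nat_eq (d i : ℂ) (by norm_num)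
  choose z hz using hex
  set K := IntermediateField.adjoin ℚ (Set.range z) with hK
  have hint : ∀ y ∈ Set.range z, IsIntegral ℚ y := by
    rintro y ⟨i, rfl⟩
    have h1 : IsIntegral ℚ (z i ^ 2) := by
      rw [hz i]
      have h2 : ((d i : ℤ) : ℂ) = algebraMap ℚ ℂ (d i : ℚ) := by simp
      rw [h2]
      exact isIntegral_algebraMap
    exact IsIntegral.of_pow (by norm_num) h1
  have hfd : FiniteDimensional ℚ K := IntermediateField.finiteDimensional_adjoin hint
  have hnf : NumberField K := { to_charZero := inferInstance, to_finiteDimensional := hfd }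
  refine ⟨⟨K, inferInstance, hnf⟩, fun i => ⟨z i, IntermediateField.subset_adjoin ℚ _ ⟨i, rfl⟩⟩, ?_, ?_⟩
  · intro i
    apply Subtype.ext
    push_cast
    exact hz i
  · apply adjoin_congr (IntermediateField.algebra' K)
    apply IntermediateField.map_injective K.val
    rw [IntermediateField.adjoin_map, ← AlgHom.fieldRange_eq_map, IntermediateField.fieldRange_val]
    refine Eq.trans ?_ hK.symm
    congr 1
    ext y
    constructor
    · rintro ⟨w, ⟨i, rfl⟩, rfl⟩
      exact ⟨i, rfl⟩
    · rintro ⟨i, rfl⟩
      exact ⟨_, ⟨i, rfl⟩, rfl⟩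

end Pool.Agent.V11109.TWI
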